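import Pool.Agent.K7.H47.DM.Stm4

/-!
Job P of project D4 (second copy).
-/

set_option autoImplicit false

namespace Pool.Agent.K7.H53.D4

open Pool.Agent.K7.H47.DM4 Matrix

/-- Pascal minor, the rows are the `j`s -/
def M {n : ℕ} (t j : Fin n → ℕ) : Matrix (Fin n) (Fin n) ℚ :=
  Matrix.of fun c r => (((t r).choose (j c) : ℕ) : ℚ)

theorem posdet : ∀ (K n : ℕ) (t j : Fin n → ℕ), StrictMono t → StrictMono j →
    n + ∑ i, t i = K → 0 ≤ (M t j).det ∧ ((∀ i, j i ≤ t i) → 0 < (M t j).det) := by
  intro K
  induction K using Nat.strong_induction_on with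
  | _ K ih =>
  intro n t j ht hj hK
  cases n with
  | zero => simp
  | succ m =>
    by_cases h0 : t 0 = 0
    · -- expand along column zero
      have hexp : (M t j).det = ((0 : ℕ).choose (j 0) : ℚ) *
          (M (fun i => t i.succ) (fun i => j i.succ)).det := by
        rw [Matrix.det_succ_column_zero, Fin.sum_univ_succ]
        have hz : ∑ i : Fin m, (-1 : ℚ) ^ ((i.succ : Fin (m + 1)) : ℕ) * (M t j) i.succ 0 *
            ((M t j).submatrix i.succ.succAbove Fin.succ).det = 0 := by
          apply Finset.sum_eq_zero
          intro i _
          have hpos : 0 < j i.succ := lt_of_le_of_lt (Nat.zero_le (j 0)) (hj (Fin.succ_pos i))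
          have : (M t j) i.succ 0 = 0 := by
            simp only [M, Matrix.of_apply, h0]
            rw [Nat.choose_eq_zero_of_lt hpos]
            simp
          rw [this]; ring
        rw [hz, add_zero]
        have hs : ((M t j).submatrix (Fin.succAbove 0) Fin.succ) =
            M (fun i => t i.succ) (fun i => j i.succ) := by
          ext a b
          simp [M]
        rw [hs]
        simp [M, h0]
      have hlt : m + ∑ i : Fin m, t i.succ < K := by
        rw [Fin.sum_univ_succ] at hK
        omega
      have hih := ih _ hlt m (fun i => t i.succ) (fun i => j i.succ)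
        (fun a b hab => ht (Fin.succ_lt_succ_iff.mpr hab))
        (fun a b hab => hj (Fin.succ_lt_succ_iff.mpr hab)) rfl
      rw [hexp]
      refine ⟨mul_nonneg (by positivity) hih.1, fun hle => ?_⟩
      have hj0 : j 0 = 0 := by have := hle 0; omega
      rw [hj0]
      simp only [Nat.choose_self, Nat.cast_one, one_mul]
      exact hih.2 (fun i => hle i.succ)
    · have ht1 : ∀ r, 1 ≤ t r := by
        intro r
        have h1 : t 0 ≤ t r := ht.monotone (Fin.zero_le r)
        omega
      let t' : Fin (m + 1) → ℕ := fun r => t r - 1
      have ht' : StrictMono t' := by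
        intro a b hab
        have h1 := ht hab
        have h2 := ht1 a
        show t a - 1 < t b - 1
        omega
      let A : Fin (m + 1) → Fin (m + 1) → ℚ := fun c r => (((t' r).choose (j c) : ℕ) : ℚ)
      let B : Fin (m + 1) → Fin (m + 1) → ℚ := fun c r =>
        if j c = 0 then 0 else (((t' r).choose (j c - 1) : ℕ) : ℚ)
      have hM : M t j = (A + B : Fin (m + 1) → Fin (m + 1) → ℚ) := by
        ext c r
        simp only [M, Matrix.of_apply, Pi.add_apply, A, B, t']
        have h1 := ht1 r
        obtain ⟨u, hu⟩ : ∃ u, t r = u + 1 := ⟨t r - 1, by omega⟩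
        rw [hu]
        simp only [Nat.add_sub_cancel]
        by_cases hc : j c = 0
        · rw [if_pos hc, hc]; simp
        · obtain ⟨v, hv⟩ : ∃ v, j c = v + 1 := ⟨j c - 1, by omega⟩
          rw [if_neg hc, hv]
          simp only [Nat.add_sub_cancel]
          rw [Nat.choose_succ_succ]
          push_cast
          ring
      have hdet : (M t j).det = ∑ s : Finset (Fin (m + 1)),
          Matrix.det (s.piecewise A B : Fin (m + 1) → Fin (m + 1) → ℚ) := by
        rw [hM]
        exact (Matrix.detRowAlternating (n := Fin (m + 1)) (R := ℚ)).toMultilinearMap.map_add_univ A B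
      have hlt : (m + 1) + ∑ i, t' i < K := by
        have h1 : ∑ i, t' i < ∑ i, t i := by
          apply Finset.sum_lt_sum
          · intro i _; exact Nat.sub_le _ _
          · exact ⟨0, Finset.mem_univ _, by have := ht1 0; show t 0 - 1 < t 0; omega⟩
        omega
      let js : Finset (Fin (m + 1)) → Fin (m + 1) → ℕ := fun s c => if c ∈ s then j c else j c - 1
      have hgood : ∀ s : Finset (Fin (m + 1)), (∀ c, c ∉ s → j c ≠ 0) →
          (s.piecewise A B : Fin (m + 1) → Fin (m + 1) → ℚ) = M t' (js s) := by
        intro s hs
        ext c r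
        by_cases hc : c ∈ s
        · simp [Finset.piecewise, hc, A, M, js]
        · simp [Finset.piecewise, hc, B, M, js, hs c hc]
      have hnn : ∀ s : Finset (Fin (m + 1)),
          0 ≤ Matrix.det (s.piecewise A B : Fin (m + 1) → Fin (m + 1) → ℚ) := by
        intro s
        by_cases hs : ∀ c, c ∉ s → j c ≠ 0
        · rw [hgood s hs]
          by_cases hm : StrictMono (js s)
          · exact (ih _ hlt (m + 1) t' (js s) ht' hm rfl).1
          · -- two equal rows
            have : ∃ a b, a < b ∧ js s b ≤ js s a := by
              by_contra hcon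
              push Not at hcon
              exact hm (fun a b hab => hcon a b hab)
            obtain ⟨a, b, hab, hle⟩ := this
            have h1 := hj hab
            have h2 : js s a ≤ j a := by
              simp only [js]; split_ifs <;> omega
            have h3 : j b - 1 ≤ js s b := by
              simp only [js]; split_ifs <;> omega
            have h4 : js s a = js s b := by omega
            have h5 : (M t' (js s)).det = 0 := by
              apply Matrix.det_zero_of_row_eq (ne_of_lt hab)
              ext r
              simp only [M, Matrix.of_apply, h4]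
            rw [h5]
        · push Not at hs
          obtain ⟨c, hc, hc0⟩ := hs
          have h5 : Matrix.det (s.piecewise A B : Fin (m + 1) → Fin (m + 1) → ℚ) = 0 := by
            apply Matrix.det_eq_zero_of_row_eq_zero c
            intro r
            simp [Finset.piecewise, hc, B, hc0]
          rw [h5]
      rw [hdet]
      refine ⟨Finset.sum_nonneg fun s _ => hnn s, fun hle => ?_⟩
      let s₀ : Finset (Fin (m + 1)) := Finset.univ.filter (fun c => j c < t c)
      have hs0 : ∀ c, c ∉ s₀ → j c = t c := by
        intro c hc
        have h1 : ¬ j c < t c := by simpa [s₀] using hc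
        have h2 := hle c
        omega
      have hs0' : ∀ c, c ∈ s₀ → j c < t c := by
        intro c hc
        simpa [s₀] using hc
      have hne : ∀ c, c ∉ s₀ → j c ≠ 0 := by
        intro c hc
        have := hs0 c hc
        have := ht1 c
        omega
      have hmono : StrictMono (js s₀) := by
        intro a b hab
        have h1 := hj hab
        have h2 := ht hab
        have h3 := hle a
        show (if a ∈ s₀ then j a else j a - 1) < (if b ∈ s₀ then j b else j b - 1)
        by_cases ha : a ∈ s₀ <;> by_cases hb : b ∈ s₀
        · rw [if_pos ha, if_pos hb]; exact h1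
        · rw [if_pos ha, if_neg hb]
          have h4 := hs0' a ha
          have h5 := hs0 b hb
          omega
        · rw [if_neg ha, if_pos hb]; omega
        · rw [if_neg ha, if_neg hb]
          have h4 := hs0 a ha
          have h5 := ht1 a
          omega
      have hle' : ∀ i, js s₀ i ≤ t' i := by
        intro i
        show (if i ∈ s₀ then j i else j i - 1) ≤ t i - 1
        by_cases hi : i ∈ s₀
        · rw [if_pos hi]; have := hs0' i hi; omega
        · rw [if_neg hi]; have := hs0 i hi; omega
      have hp : 0 < Matrix.det (s₀.piecewise A B : Fin (m + 1) → Fin (m + 1) → ℚ) := by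
        rw [hgood s₀ hne]
        exact (ih _ hlt (m + 1) t' (js s₀) ht' hmono rfl).2 hle'
      exact lt_of_lt_of_le hp (Finset.single_le_sum (f := fun s : Finset (Fin (m + 1)) =>
        Matrix.det (s.piecewise A B : Fin (m + 1) → Fin (m + 1) → ℚ)) (fun s _ => hnn s)
        (Finset.mem_univ s₀))

/-- sorting -/
lemma exists_sort {ι : Type} [Fintype ι] (t : ι → ℕ) (ht : Function.Injective t) :
    ∃ e : ι ≃ Fin (Fintype.card ι), StrictMono (fun i => t (e.symm i)) := by
  classical
  let T : Finset ℕ := Finset.univ.image t
  have hT : T.card = Fintype.card ι := by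
    rw [Finset.card_image_of_injective _ ht, Finset.card_univ]
  let o := T.orderIsoOfFin hT
  have hb : Function.Bijective (fun c : ι => o.symm ⟨t c, Finset.mem_image_of_mem t (Finset.mem_univ c)⟩) := by
    rw [Fintype.bijective_iff_injective_and_card]
    refine ⟨?_, by simp⟩
    intro a b hab
    have := o.symm.injective hab
    exact ht (by simpa using this)
  let e := Equiv.ofBijective _ hb
  refine ⟨e, ?_⟩
  have he : ∀ i, t (e.symm i) = (o i : ℕ) := by
    intro i
    have h1 : e (e.symm i) = i := e.apply_symm_apply i
    have h2 : o.symm ⟨t (e.symm i), Finset.mem_image_of_mem t (Finset.mem_univ _)⟩ = i := h1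
    have h3 := congrArg o h2
    rw [OrderIso.apply_symm_apply] at h3
    rw [← h3]
  intro a b hab
  simp only [he]
  exact_mod_cast o.strictMono hab

theorem p : StP := by
  intro ι _ _ t j ht hj hle
  obtain ⟨e, he⟩ := exists_sort t ht
  obtain ⟨e', he'⟩ := exists_sort j hj
  have hpol : ∀ i, j (e'.symm i) ≤ t (e.symm i) := by
    intro i
    by_contra hcon
    push Not at hcon
    -- the elements `c` with `t c ≤ t (e.symm i)`
    have h1 : ((Finset.univ.filter (fun k : Fin (Fintype.card ι) => k ≤ i)).image
        (fun k => e' (e.symm k))) ⊆ Finset.univ.filter (fun k => k < i) := by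
      intro x hx
      rw [Finset.mem_image] at hx
      obtain ⟨k, hk, rfl⟩ := hx
      rw [Finset.mem_filter] at hk ⊢
      refine ⟨Finset.mem_univ _, ?_⟩
      have h2 : t (e.symm k) ≤ t (e.symm i) := he.monotone hk.2
      have h3 : j (e.symm k) < j (e'.symm i) := lt_of_le_of_lt ((hle _).trans h2) hcon
      have h4 : j (e'.symm (e' (e.symm k))) < j (e'.symm i) := by
        rw [Equiv.symm_apply_apply]; exact h3
      exact he'.lt_iff_lt.mp h4
    have h5 := Finset.card_le_card h1
    rw [Finset.card_image_of_injective _ (fun a b hab => e.symm.injective (e'.injective hab))] at h5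
    have h6 : (Finset.univ.filter (fun k : Fin (Fintype.card ι) => k < i)) ⊂
        (Finset.univ.filter (fun k : Fin (Fintype.card ι) => k ≤ i)) := by
      rw [Finset.ssubset_iff_of_subset]
      · exact ⟨i, by simp, by simp⟩
      · intro x hx
        simp only [Finset.mem_filter, Finset.mem_univ, true_and] at hx ⊢
        exact hx.le
    have h7 := Finset.card_lt_card h6
    omega
  have hpos := (posdet _ _ (fun i => t (e.symm i)) (fun i => j (e'.symm i)) he he' rfl).2 hpol
  -- the matrix is a reindexing
  have hM : (Matrix.of fun r c => (((t r).choose (j c) : ℕ) : ℚ)) =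
      (((M (fun i => t (e.symm i)) (fun i => j (e'.symm i)))ᵀ).submatrix id
        (e.symm.trans e')).submatrix e e := by
    ext r c
    simp [M]
  rw [hM, Matrix.det_submatrix_equiv_self, Matrix.det_permute', Matrix.det_transpose]
  apply mul_ne_zero
  · exact_mod_cast (Equiv.Perm.sign _).ne_zero
  · exact hpos.ne'

end Pool.Agent.K7.H53.D4
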