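import Pool.Agent.K7.H16.SG.Stm

/-!
Job S of project SG.
-/

set_option autoImplicit false

namespace Pool.Agent.K7.H53.SGS

open Pool.Agent.K7.H16.SG List

lemma max_mem : ∀ w : List ℕ, w ≠ [] → w.foldr max 0 ∈ w
  | [], h => absurd rfl h
  | [a], _ => by simp
  | a :: b :: w, _ => by
    have ih := max_mem (b :: w) (by simp)
    rw [List.foldr_cons]
    rcases le_total a ((b :: w).foldr max 0) with h | h
    · rw [max_eq_right h]; exact List.mem_cons_of_mem _ ih
    · rw [max_eq_left h]; simp

lemma max_le (m : ℕ) : ∀ w : List ℕ, (∀ a ∈ w, a ≤ m) → w.foldr max 0 ≤ m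
  | [], _ => by simp
  | a :: w, h => by
    rw [List.foldr_cons]
    exact Nat.max_le.mpr ⟨h a (by simp), max_le m w (fun b hb => h b (List.mem_cons_of_mem _ hb))⟩

lemma le_max : ∀ (w : List ℕ) (a : ℕ), a ∈ w → a ≤ w.foldr max 0
  | [], _, h => by simp at h
  | b :: w, a, h => by
    rw [List.foldr_cons]
    rcases List.mem_cons.mp h with rfl | h
    · exact le_max_left _ _
    · exact (le_max w a h).trans (le_max_right _ _)

lemma split {w : List ℕ} {M : ℕ} (h : M ∈ w) :
    w = w.takeWhile (fun x => x ≠ M) ++ M :: (w.dropWhile (fun x => x ≠ M)).tail := by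
  induction w with
  | nil => simp at h
  | cons a w ih =>
    by_cases ha : a = M
    · subst ha
      simp
    · have hm : M ∈ w := by
        rcases List.mem_cons.mp h with h | h
        · exact absurd h.symm ha
        · exact h
      have h1 := ih hm
      rw [List.takeWhile_cons_of_pos (by simpa using ha), List.dropWhile_cons_of_pos (by simpa using ha)]
      rw [List.cons_append, ← h1]

lemma lens {w : List ℕ} {M : ℕ} (h : M ∈ w) :
    (w.takeWhile (fun x => x ≠ M)).length + (w.dropWhile (fun x => x ≠ M)).tail.length + 1
      = w.length := by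
  conv_rhs => rw [split h]
  rw [List.length_append, List.length_cons]
  omega

lemma sf_nil (k : ℕ) : sf k [] = [] := by
  cases k <;> simp [sf]

lemma sf_succ (k : ℕ) {w : List ℕ} (h : w ≠ []) : sf (k + 1) w =
    sf k (w.takeWhile (fun x => x ≠ w.foldr max 0)) ++
      sf k ((w.dropWhile (fun x => x ≠ w.foldr max 0)).tail) ++ [w.foldr max 0] := by
  rw [sf, if_neg h]

lemma fuel : ∀ (k j : ℕ) (w : List ℕ), w.length ≤ k → w.length ≤ j → sf k w = sf j w := by
  intro k
  induction k with
  | zero =>
    intro j w h _
    have : w = [] := List.length_eq_zero_iff.mp (by omega)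
    subst this
    rw [sf_nil, sf_nil]
  | succ k ih =>
    intro j w h h'
    by_cases hw : w = []
    · subst hw; rw [sf_nil, sf_nil]
    · have hpos : 0 < w.length := List.length_pos_iff.mpr hw
      obtain ⟨j, rfl⟩ : ∃ j', j = j' + 1 := ⟨j - 1, by omega⟩
      rw [sf_succ k hw, sf_succ j hw]
      have hl := lens (max_mem w hw)
      rw [ih j _ (by omega) (by omega), ih j _ (by omega) (by omega)]

lemma sf_perm : ∀ (k : ℕ) (w : List ℕ), w.length ≤ k → (sf k w).Perm w := by
  intro k
  induction k with
  | zero =>
    intro w h
    have : w = [] := List.length_eq_zero_iff.mp (by omega)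
    subst this
    rw [sf_nil]
  | succ k ih =>
    intro w h
    by_cases hw : w = []
    · subst hw; rw [sf_nil]
    · rw [sf_succ k hw]
      have hl := lens (max_mem w hw)
      have h1 := ih (w.takeWhile (fun x => x ≠ w.foldr max 0)) (by omega)
      have h2 := ih ((w.dropWhile (fun x => x ≠ w.foldr max 0)).tail) (by omega)
      have h3 := split (max_mem w hw)
      have h4 : (w.takeWhile (fun x => x ≠ w.foldr max 0) ++
          w.foldr max 0 :: (w.dropWhile (fun x => x ≠ w.foldr max 0)).tail).Perm w := by
        rw [← h3]
      refine ((h1.append h2).append_right _).trans (List.Perm.trans ?_ h4)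
      rw [List.append_assoc]
      exact List.Perm.append_left _ (List.perm_append_singleton _ _)

theorem t : StS := by
  refine ⟨rfl, ?_, ?_⟩
  · intro L R m h
    have hne : L ++ m :: R ≠ [] := by simp
    have hm : (L ++ m :: R).foldr max 0 = m := by
      apply le_antisymm
      · apply max_le
        intro a ha
        rcases List.mem_append.mp ha with ha | ha
        · exact (h a (List.mem_append_left _ ha)).le
        · rcases List.mem_cons.mp ha with rfl | ha
          · exact le_refl _
          · exact (h a (List.mem_append_right _ ha)).le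
      · exact le_max _ _ (by simp)
    have hL : ∀ a ∈ L, decide (a ≠ m) = true := by
      intro a ha
      have := h a (List.mem_append_left _ ha)
      simp only [decide_eq_true_eq]
      omega
    have h1 : (L ++ m :: R).takeWhile (fun x => x ≠ m) = L := by
      rw [List.takeWhile_append_of_pos hL]
      simp
    have h2 : (L ++ m :: R).dropWhile (fun x => x ≠ m) = m :: R := by
      rw [List.dropWhile_append_of_pos hL]
      simp
    unfold s
    have hlen : (L ++ m :: R).length = (L.length + R.length) + 1 := by
      simp; omega
    rw [hlen, sf_succ _ hne, hm, h1, h2, List.tail_cons,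
      fuel (L.length + R.length) L.length L (by omega) (le_refl _),
      fuel (L.length + R.length) R.length R (by omega) (le_refl _)]
  · intro w _
    exact sf_perm _ w (le_refl _)

end Pool.Agent.K7.H53.SGS
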